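import Pool.Agent.Lib.MP_a1cc03_ag.AU.Quo

/-!
# MP_a1cc03_ag: all translates of abelian subvarieties of products of elliptic curves, and quotients

Let `p` be an odd prime and let `E i`, `i ∈ ι` (any index set), be elliptic curves over `ℚ̄` whose
`j`-invariants are integral at `p` (every finite family has such a `p`). There is a set `T` of systems `A` of
subgroups `A i` of `E i (ℚ̄)`, each of infinite rank, closed under division and under all homomorphisms of the
curves, such that every point of every curve `E i` lies in `A i` for some `A` in `T`, with the following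
property. Let `X = E (j 0) × … × E (j (n-1))` (any `n`, repetitions allowed), let `U(X)` be the union over all
`A` in `T` of the products of the groups `A (j k)` (a union of subgroups, not a subgroup), let `G` be a finite
group of automorphisms `x ↦ S_g x + t_g` of `X` (`G` trivial is the case of `X` itself), let `b` be a point of
`X` and let `e ≥ 1`. Then the Abel-Jacobi map of `X/G` is injective up to torsion on the group of cycles
generated by the images of the translates `B + a` of all abelian subvarieties `B` of dimension `e` of `X` by
points `a` with orbit `G a` contained in `b + U(X)`. If `g b - b` is torsion for all `g ∈ G` (there is such a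
point `b` for every `G`: take `|G| b = ∑ g, t_g`), then these `a` are all points of `b + U(X)`, because the
groups of the systems `A` are closed under division and homomorphisms.

The curves may have complex multiplication: `R` is a commutative ring which acts on all curves `E i` by
endomorphisms, through homomorphisms `θ i` from `R` to `ℤ` or to a ring of complex multiplications in `ℂ`
(`IsEndRing`). The cycle `[M; a]` (`abCycle`) is the push-forward of the fundamental cycle of a product of `e`
of the curves under `z ↦ M z + a`, where `M` is a matrix over `R` with entries only between equal curves.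
If the curves `E i` are pairwise not isogenous (every product of elliptic curves is isogenous to a product of
powers of such curves) and `R` maps onto the product of their endomorphism rings, then every abelian
subvariety is, up to a multiple, of this form.

The first condition, in terms of the minors of the complex matrices of `S_g M_s`, says that the image of the
cycle in `X/G` is homologically trivial; the second one, in terms of the minors of `(S_g M_s | g a_s - b)`,
whose last column is mapped to `ℂ` by arbitrary `θ`-linear functions `lam i` on `E i (ℚ̄)`, says that its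
Abel-Jacobi image is torsion. The conclusion is that a multiple of the cycle is the sum of an element of the
explicit group `RatAb` of cycles rationally equivalent to zero and of a combination of cycles `[Z] - [g Z]`.
Definitions are in `Pool.Agent.Lib.MP_a1cc03_ag.AC.Defs`, `Pool.Agent.Lib.MP_a1cc03_ag.QH.Defs` (`IsHom`),
`Pool.Agent.Lib.MP_a1cc03_ag.LC.QDefs` (`OrbitRel`), `Pool.Agent.Lib.MP_a1cc03_ag.Stmt`,
`Pool.Agent.Lib.MP_a1cc03_ag.Stmt2` (`RatEqPi`) and `Pool.Agent.Lib.MP_a1cc03_ag.Y2_Family` (`PIntegral`).
-/

namespace Pool.Agent.Results.MP_a1cc03_ag.AbelianCycles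

open Pool.Agent.ZC ComplexConjugate

open scoped Classical in
theorem result {p : ℕ} (hp : p.Prime) (hp2 : p ≠ 2) {ι : Type}
    (E : ι → WeierstrassCurve (AlgebraicClosure ℚ)) [∀ i, (E i).IsElliptic]
    (hj : ∀ i, PIntegral p (E i).j) :
    ∃ T : Set (∀ i, AddSubgroup (E i).toAffine.Point),
      (∀ i (P : (E i).toAffine.Point), ∃ A ∈ T, P ∈ A i) ∧
      (∀ A ∈ T, (∀ i, ∃ u : ℕ → A i, LinearIndependent ℤ u) ∧
        (∀ i (a : (E i).toAffine.Point) (m : ℕ), 0 < m → m • a ∈ A i → a ∈ A i) ∧
        (∀ i i' (φ : (E i).toAffine.Point →+ (E i').toAffine.Point), IsHom (E i) (E i') φ →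
          ∀ a ∈ A i, φ a ∈ A i')) ∧
      ∀ (R : Type) [CommRing R] [∀ i, Module R (E i).toAffine.Point] (θ : ι → R →+* ℂ),
        (∀ i, IsEndRing (E i) (θ i)) →
      ∀ (n : ℕ) (j : Fin n → ι) (G : Type) [Group G] [Fintype G]
        [MulAction G (∀ k, (E (j k)).toAffine.Point)]
        (S : G → Fin n → Fin n → R) (t : G → ∀ k, (E (j k)).toAffine.Point),
        (∀ g l k, j l ≠ j k → S g l k = 0) →
        (∀ (g : G) (x : ∀ k, (E (j k)).toAffine.Point), g • x = abAff E j (S g) (t g) x) →
        ∀ (b : ∀ k, (E (j k)).toAffine.Point) (e : ℕ), 1 ≤ e → ∀ (m : ℕ) (κ : Fin m → Fin e → ι)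
          (c : Fin m → ℤ) (M : Fin m → Fin e → Fin n → R)
          (a : Fin m → ∀ k, (E (j k)).toAffine.Point),
          (∀ s d k, κ s d ≠ j k → M s d k = 0) →
          (∀ s (g : G), ∃ A ∈ T, ∀ k, (g • a s) k - b k ∈ A (j k)) →
          (∀ I J : Fin e → Fin n, ∑ g, ∑ s,
            (c s : ℂ) * cminor (cmat θ j (abComp (S g) (M s))) I
              * conj (cminor (cmat θ j (abComp (S g) (M s))) J) = 0) →
          (∀ lam : ∀ i, (E i).toAffine.Point → ℂ, (∀ i, IsCoord ⊤ (θ i) (lam i)) →
            ∀ (J : Fin e → Fin n) (L : Fin (e + 1) → Fin n), ∑ g, ∑ s,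
              (c s : ℂ) * conj (cminor (cmat θ j (abComp (S g) (M s))) J) *
                cpminor (cmat θ j (abComp (S g) (M s)))
                  (fun k => lam (j k) ((g • a s) k - b k)) L = 0) →
          ∃ N : ℕ, 0 < N ∧ N • ∑ s, c s • abCycle E j (κ s) (M s) (a s) ∈
            (⨆ κ : Fin e → ι, RatAb R E j κ) ⊔ OrbitRel E j G := by
  obtain ⟨T, hcov, hT, h⟩ := AU.main_final hp hp2 E hj
  exact ⟨T, hcov, hT, fun R _ _ θ hE n j G _ _ _ S t hS hG b e _ =>
    h R θ hE n j G S t hS hG b e⟩

end Pool.Agent.Results.MP_a1cc03_ag.AbelianCycles
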