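import Pool.Agent.Lib.MP_a1cc03_ag.CJ.Main

/-!
# MP_a1cc03_ag: planes on cubic fourfolds and cubic hypersurfaces

Let `p` be an odd prime, let `E i`, `i ∈ ι` (any index set), be elliptic curves over `ℚ̄` whose `j`-invariants are
integral at `p` (every finite family has such a `p`), and let `F i` be their Weierstrass forms (`cubicForm`),
cubic forms in three variables. Let `X` be the smooth cubic hypersurface
`F (j 0) (x_0) + … + F (j (n-1)) (x_(n-1)) = 0` in `ℙ^(3n-1)`, of dimension `3n - 2`; for `n = 2` it is the cubic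
fourfold `F(x) + G(y) = 0`. If `P_k` is a point of `E (j k)`, then the linear space `Π(P_0, …, P_(n-1))` of
dimension `n - 1` spanned by `P_0, …, P_(n-1)` (`joinPlane`) is contained in `X`.

There is a set `T` of systems `A` of subgroups `A i` of `E i (ℚ̄)`, each of infinite rank, closed under division and
under all homomorphisms of the curves, such that every point of every curve `E i` lies in `A i` for some `A` in `T`,
with the following property: all spaces `Π(P_0, …, P_(n-1))` such that for some `k ≠ l` and some `A` in `T` we have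
`P_k ∈ A (j k)` and `P_l ∈ A (j l)` (the other points are arbitrary) are rationally equivalent up to torsion. For
`n ≥ 2` this is what the conjecture of Beilinson and Bloch predicts for all `(n-1)`-planes of `X`, because
`H^(4n-3)(X) = 0`. In particular, on all smooth cubic fourfolds `F(x) + G(y) = 0` over `ℚ̄` the lines `P Q`, where
`P` is an arbitrary `ℚ̄`-point of the curve `F = 0` and `Q` belongs to a subgroup of infinite rank of the curve
`G = 0` which depends on `P`, are equal in `CH_1(X) ⊗ ℚ`.

The relations used are those given by one-parameter families of `(n-1)`-planes of `X`, so this is also a statement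
on zero-cycles on the variety of `(n-1)`-planes of `X` (for `n = 2`, a hyperkähler fourfold). Definitions are in
`Pool.Agent.Lib.MP_a1cc03_ag.CJ.Defs` (`cubicForm`, `homCoord`, `IsPlaneOn`, `joinPlane`, `RatPlanes`,
`PlaneCycles`, `planeCycle`, `PairPlanes`, `planeDegree`),
`Pool.Agent.Lib.MP_a1cc03_ag.Stmt` (`Place`, `IsFunctionField`), `Pool.Agent.Lib.MP_a1cc03_ag.QH.Defs` (`IsHom`)
and `Pool.Agent.Lib.MP_a1cc03_ag.Y2_Family` (`PIntegral`).
-/

namespace Pool.Agent.Results.MP_a1cc03_ag.CubicHypersurfaces

open Pool.Agent.ZC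

open scoped Classical in
theorem result {p : ℕ} (hp : p.Prime) (hp2 : p ≠ 2) {ι : Type}
    (E : ι → WeierstrassCurve (AlgebraicClosure ℚ)) [∀ i, (E i).IsElliptic]
    (hj : ∀ i, PIntegral p (E i).j) :
    ∃ T : Set (∀ i, AddSubgroup (E i).toAffine.Point),
      (∀ i (P : (E i).toAffine.Point), ∃ A ∈ T, P ∈ A i) ∧
      (∀ A ∈ T, (∀ i, ∃ u : ℕ → A i, LinearIndependent ℤ u) ∧
        (∀ i (a : (E i).toAffine.Point) (m : ℕ), 0 < m → m • a ∈ A i → a ∈ A i) ∧
        (∀ i i' (φ : (E i).toAffine.Point →+ (E i').toAffine.Point), IsHom (E i) (E i') φ →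
          ∀ a ∈ A i, φ a ∈ A i')) ∧
      ∀ (n : ℕ) (j : Fin n → ι),
        (∀ x : ∀ k, (E (j k)).toAffine.Point, IsPlaneOn (fun k => E (j k)) (joinPlane x)) ∧
        ∀ z ∈ PairPlanes E T j, planeDegree z = 0 →
          ∃ N : ℕ, 0 < N ∧ N • z ∈ RatPlanes (fun k => E (j k)) :=
  CJ.main_cubic hp hp2 E hj

end Pool.Agent.Results.MP_a1cc03_ag.CubicHypersurfaces
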