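import Pool.Agent.Lib.MP_a1cc03_ag.AU.Prod

/-!
# MP_a1cc03_ag: zero-cycles on products of elliptic curves

Let `p` be an odd prime and let `E i`, `i ∈ ι` (any index set), be elliptic curves over `ℚ̄` whose
`j`-invariants are integral at `p` (for instance all of them; every finite family has such a `p`). There is a
set `T` of systems `A` of subgroups `A i` of `E i (ℚ̄)`, each of infinite rank, closed under division and under
all homomorphisms between the curves, such that every point of every curve `E i` lies in `A i` for some `A` in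
`T`, with the following property. Let `X = E (j 0) × … × E (j (n-1))` (any `n`, repetitions allowed), let
`U(X)` be the union over all `A` in `T` of the products of the groups `A (j k)`, and let `c` be any point of
`X`. Then every zero-cycle of degree zero with trivial Albanese image, supported on `c + U(X)`, is torsion in
`CH₀(X)`, as the conjecture of Beilinson and Bloch predicts. The set `U(X)` is not a subgroup: the points of
the cycle may belong to different systems `A`. It contains all points of the image of every homomorphism from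
a curve `E i` to `X`, that is, all `ℚ̄`-points of all elliptic curves through `0` in `X`, and, for `n = 2`, for
every point `P` of the first curve the product of `{P}` and a group of infinite rank.

Definitions are in `Pool.Agent.Lib.MP_a1cc03_ag.Stmt` and `Pool.Agent.Lib.MP_a1cc03_ag.Stmt2`; `IsHom` is in
`Pool.Agent.Lib.MP_a1cc03_ag.QH.Defs`, `PIntegral` in `Pool.Agent.Lib.MP_a1cc03_ag.Y2_Family`.
-/

namespace Pool.Agent.Results.MP_a1cc03_ag.Products

open Pool.Agent.ZC

open scoped Classical in
theorem result {p : ℕ} (hp : p.Prime) (hp2 : p ≠ 2) {ι : Type}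
    (E : ι → WeierstrassCurve (AlgebraicClosure ℚ)) [∀ i, (E i).IsElliptic]
    (hj : ∀ i, PIntegral p (E i).j) :
    ∃ T : Set (∀ i, AddSubgroup (E i).toAffine.Point),
      (∀ i (P : (E i).toAffine.Point), ∃ A ∈ T, P ∈ A i) ∧
      (∀ A ∈ T, (∀ i, ∃ u : ℕ → A i, LinearIndependent ℤ u) ∧
        (∀ i (a : (E i).toAffine.Point) (m : ℕ), 0 < m → m • a ∈ A i → a ∈ A i) ∧
        (∀ i i' (φ : (E i).toAffine.Point →+ (E i').toAffine.Point), IsHom (E i) (E i') φ →
          ∀ a ∈ A i, φ a ∈ A i')) ∧
      (∀ (n : ℕ) (j : Fin n → ι) (i : ι)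
        (φ : ∀ k, (E i).toAffine.Point →+ (E (j k)).toAffine.Point),
        (∀ k, IsHom (E i) (E (j k)) (φ k)) →
        ∀ P : (E i).toAffine.Point, ∃ A ∈ T, ∀ k, φ k P ∈ A (j k)) ∧
      ∀ (n : ℕ) (j : Fin n → ι) (c : ∀ k, (E (j k)).toAffine.Point)
        (z : FreeAbelianGroup (∀ k, (E (j k)).toAffine.Point)),
        z ∈ AddSubgroup.closure
          (FreeAbelianGroup.of '' {x | ∃ A ∈ T, ∀ k, x k - c k ∈ A (j k)}) →
        degree (fun k => E (j k)) z = 0 → albanese (fun k => E (j k)) z = 0 →
        ∃ N : ℕ, 0 < N ∧ N • z ∈ RatEqPi (fun k => E (j k)) := by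
  obtain ⟨T, hcov, hT, hprod⟩ := AU.main_product_union hp hp2 E hj
  refine ⟨T, hcov, hT, fun n j i φ hφ P => ?_, hprod⟩
  obtain ⟨A, hA, hP⟩ := hcov i P
  exact ⟨A, hA, fun k => (hT A hA).2.2 i (j k) (φ k) (hφ k) P hP⟩

end Pool.Agent.Results.MP_a1cc03_ag.Products
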