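import Pool.Agent.Lib.MP_a1cc03_ag.AU.Prod

/-!
# MP_a1cc03_ag: zero-cycles on all quotients of products of elliptic curves by finite groups

Let `p` be an odd prime and let `E i`, `i ∈ ι` (any index set), be elliptic curves over `ℚ̄` whose
`j`-invariants are integral at `p`. There is a set `T` of systems `A` of subgroups `A i` of `E i (ℚ̄)`, each of
infinite rank, closed under division and under all homomorphisms of the curves (complex multiplications,
isogenies), such that every point of every curve `E i` lies in `A i` for some `A` in `T`, with the following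
property. Let `X = E (j 0) × … × E (j (n-1))` (any `n`, repetitions allowed), let `U(X)` be the union over all
`A` in `T` of the products of the groups `A (j k)`, and let `G` be any finite group which acts on `X`, not
trivially, by automorphisms `x ↦ R x + t`, where `R` is a matrix of homomorphisms of the curves and `t` is a
point: the quotient `X/G` can be a Kummer surface, a generalised Kummer variety, an abelian variety isogenous
to `X`, a bielliptic surface, the rigid Calabi-Yau threefold `E_ω³/μ₃`, ... Let `c` be any point of `X`. Then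
every zero-cycle of degree zero on `X`, supported on points `x` whose orbit `G x` is contained in `c + U(X)`,
whose image in the Albanese variety of `X/G` is torsion (that is, `∑ g, R g` maps its sum in `X` to a torsion
point), has a multiple which is the sum of a zero-cycle rationally equivalent to zero and of a combination of
cycles `[x] - [g x]`. So the Abel-Jacobi map of `X/G` is injective, up to torsion, on the zero-cycles supported
on the image of these points. If `g c - c` is torsion for all `g ∈ G` (there is such a point `c` for every `G`: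
take `|G| c = ∑ g, t_g`), then these points are all points of `c + U(X)`, because the groups of the system `A`
are closed under division and homomorphisms.

Definitions are in `Pool.Agent.Lib.MP_a1cc03_ag.Stmt`, `Pool.Agent.Lib.MP_a1cc03_ag.Stmt2`,
`Pool.Agent.Lib.MP_a1cc03_ag.LC.QDefs` (`PointRel`), `Pool.Agent.Lib.MP_a1cc03_ag.QH.Defs` (`IsHom`) and
`Pool.Agent.Lib.MP_a1cc03_ag.Y2_Family` (`PIntegral`).
-/

namespace Pool.Agent.Results.MP_a1cc03_ag.Quotients

open Pool.Agent.ZC

open scoped Classical in
theorem result {p : ℕ} (hp : p.Prime) (hp2 : p ≠ 2) {ι : Type}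
    (E : ι → WeierstrassCurve (AlgebraicClosure ℚ)) [∀ i, (E i).IsElliptic]
    (hj : ∀ i, PIntegral p (E i).j) :
    ∃ T : Set (∀ i, AddSubgroup (E i).toAffine.Point),
      (∀ i (P : (E i).toAffine.Point), ∃ A ∈ T, P ∈ A i) ∧
      (∀ A ∈ T, (∀ i, ∃ u : ℕ → A i, LinearIndependent ℤ u) ∧
        (∀ i (a : (E i).toAffine.Point) (m : ℕ), 0 < m → m • a ∈ A i → a ∈ A i) ∧
        (∀ i i' (φ : (E i).toAffine.Point →+ (E i').toAffine.Point), IsHom (E i) (E i') φ →
          ∀ a ∈ A i, φ a ∈ A i')) ∧
      ∀ (n : ℕ) (j : Fin n → ι) (G : Type) [Group G] [Fintype G]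
        [MulAction G (∀ k, (E (j k)).toAffine.Point)]
        (R : G → ∀ l k, (E (j l)).toAffine.Point →+ (E (j k)).toAffine.Point)
        (t : G → ∀ k, (E (j k)).toAffine.Point),
        (∀ g l k, IsHom (E (j l)) (E (j k)) (R g l k)) →
        (∀ (g : G) (x : ∀ k, (E (j k)).toAffine.Point) (k : Fin n),
          (g • x) k = ∑ l, R g l k (x l) + t g k) →
        (∃ (g : G) (x : ∀ k, (E (j k)).toAffine.Point), g • x ≠ x) →
        ∀ (c : ∀ k, (E (j k)).toAffine.Point)
          (z : FreeAbelianGroup (∀ k, (E (j k)).toAffine.Point)),
          z ∈ AddSubgroup.closure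
            (FreeAbelianGroup.of '' {x | ∀ g : G, ∃ A ∈ T, ∀ k, (g • x) k - c k ∈ A (j k)}) →
          degree (fun k => E (j k)) z = 0 →
          (∃ N : ℕ, 0 < N ∧
            ∀ k, N • ∑ g, ∑ l, R g l k (albanese (fun k => E (j k)) z l) = 0) →
          ∃ N : ℕ, 0 < N ∧ N • z ∈ RatEqPi (fun k => E (j k)) ⊔ PointRel E j G := by
  obtain ⟨T, hcov, hT, hprod⟩ := AU.main_product_union hp hp2 E hj
  refine ⟨T, hcov, hT, fun n j G _ _ _ R t _ hG _ c z hz hd halb => ?_⟩
  exact AU.quotient_union E j T c (hprod n j c) R t hG z hz hd halb

end Pool.Agent.Results.MP_a1cc03_ag.Quotients
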